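import Pool.Agent.E8helper40.PC.Top

/-!
# Simple abelian varieties over `ℚ` and their points over `ℚ_p`: the data used in the theorem without
assumptions from transcendence theory
-/

set_option autoImplicit false

open TensorProduct Module

namespace Pool.Agent.E8helper40.PF

/-- The `ℚ`-linear extension of a homomorphism to `ℚ_p ^ n`. -/
noncomputable def extend {p : ℕ} [Fact p.Prime] {n : ℕ} {P : Type} [AddCommGroup P]
    (f : P →+ (Fin n → ℚ_[p])) : ℚ ⊗[ℤ] P →ₗ[ℚ] (Fin n → ℚ_[p]) :=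
  f.toIntLinearMap.liftBaseChange ℚ

/-- A simple abelian variety `A` over `ℚ`, of dimension `n ≥ 1`, and its points over `ℚ_p`. -/
structure SimpleAbelianVariety (p : ℕ) [Fact p.Prime] (n : ℕ) where
  pos : 0 < n
  /-- `A(ℚ)` -/
  Pts : Type
  [ptsGroup : AddCommGroup Pts]
  /-- `A(ℚ_p)`, a compact group -/
  Loc : Type
  [locGroup : AddCommGroup Loc]
  [locTop : TopologicalSpace Loc]
  [locTopGroup : IsTopologicalAddGroup Loc]
  [locCompact : CompactSpace Loc]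
  [locT2 : T2Space Loc]
  /-- the inclusion `A(ℚ) → A(ℚ_p)` -/
  incl : Pts →+ Loc
  incl_injective : Function.Injective incl
  /-- an open subgroup of `A(ℚ_p)` isomorphic to `ℤ_p ^ n` -/
  core : AddSubgroup Loc
  core_open : IsOpen (core : Set Loc)
  coreEquiv : (Fin n → ℤ_[p]) ≃ₜ+ core
  /-- the logarithm `A(ℚ_p) → Lie A(ℚ_p) = ℚ_p ^ n`, in a basis of `Lie A` over `ℚ` -/
  log : Loc →+ (Fin n → ℚ_[p])
  log_continuous : Continuous log
  log_torsion : ∀ x, log x = 0 → ∃ N : ℕ, 0 < N ∧ N • x = 0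
  /-- `End⁰(A)`, the endomorphisms over `ℚ`, tensored with `ℚ` -/
  End : Type
  [endRing : DivisionRing End]
  [endCharZero : CharZero End]
  /-- the action on `A(ℚ) ⊗ ℚ` -/
  [endModule : Module End (ℚ ⊗[ℤ] Pts)]
  /-- the action on `Lie A = ℚ ^ n` -/
  lie : End →+* Matrix (Fin n) (Fin n) ℚ
  log_smul : ∀ (δ : End) (v : ℚ ⊗[ℤ] Pts),
    extend (log.comp incl) (δ • v)
      = ((lie δ).map (algebraMap ℚ ℚ_[p])).mulVec (extend (log.comp incl) v)

attribute [instance] SimpleAbelianVariety.ptsGroup SimpleAbelianVariety.locGroup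
  SimpleAbelianVariety.locTop SimpleAbelianVariety.locTopGroup SimpleAbelianVariety.locCompact
  SimpleAbelianVariety.locT2 SimpleAbelianVariety.endRing SimpleAbelianVariety.endCharZero
  SimpleAbelianVariety.endModule

variable {p : ℕ} [Fact p.Prime] {n : ℕ} (A : SimpleAbelianVariety p n)

/-- The rank of a subgroup `L` of `A(ℚ)`, the dimension of `L ⊗ ℚ`. -/
noncomputable def rank (L : AddSubgroup A.Pts) : ℕ := Module.finrank ℚ (ℚ ⊗[ℤ] L)

/-- The closure of `L ⊂ A(ℚ)` in `A(ℚ_p)`. -/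
def closure (L : AddSubgroup A.Pts) : AddSubgroup A.Loc := (L.map A.incl).topologicalClosure

/-- The subspace of `A(ℚ) ⊗ ℚ` over `End⁰(A)` spanned by `L`. -/
def endSpan (L : AddSubgroup A.Pts) : Submodule A.End (ℚ ⊗[ℤ] A.Pts) :=
  Submodule.span A.End ((fun x : A.Pts => (1 : ℚ) ⊗ₜ[ℤ] x) '' L)

/-- The line over `End⁰(A)` in `A(ℚ) ⊗ ℚ` which belongs to `v`, as a rational space. -/
def line (v : ℚ ⊗[ℤ] A.Pts) : Submodule ℚ (ℚ ⊗[ℤ] A.Pts) :=
  (Submodule.span A.End {v}).restrictScalars ℚ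

/-- The subspace `L ⊗ ℚ` of `A(ℚ) ⊗ ℚ`. -/
def ratSpan (L : AddSubgroup A.Pts) : Submodule ℚ (ℚ ⊗[ℤ] A.Pts) :=
  Submodule.span ℚ ((fun x : A.Pts => (1 : ℚ) ⊗ₜ[ℤ] x) '' L)

/-- The algebra `D ⊗ ℚ_p` of the endomorphism algebra `D`. -/
abbrev EndP : Type := ℚ_[p] ⊗[ℚ] A.End

/-- The dimension of `D` over `ℚ`. -/
noncomputable def degree : ℕ := finrank ℚ A.End

/-- The dimension over `ℚ_p` of a left ideal of `D ⊗ ℚ_p`. -/
noncomputable def idealDim (I : Ideal (EndP A)) : ℕ := finrank ℚ_[p] (I.restrictScalars ℚ_[p])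

/-- Every nonzero cyclic left module `(D ⊗ ℚ_p) / I` has dimension at least `μ` over `ℚ_p`. -/
def ModulesAtLeast (μ : ℕ) : Prop := ∀ I : Ideal (EndP A), I ≠ ⊤ → idealDim A I + μ ≤ degree A

/-- The algebra `D ⊗ ℚ_p` has no zero divisors. -/
def Nonsplit : Prop := ∀ a b : EndP A, a * b = 0 → a = 0 ∨ b = 0

/-- The dimension of `(L ⊗ ℚ) ∩ D v`. -/
noncomputable def lineRank (L : AddSubgroup A.Pts) (v : ℚ ⊗[ℤ] A.Pts) : ℕ :=
  finrank ℚ ↥(ratSpan A L ⊓ line A v)

/-- The dimension of `D L` over `D`. -/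
noncomputable def endDim (L : AddSubgroup A.Pts) : ℕ := finrank A.End (endSpan A L)

end Pool.Agent.E8helper40.PF
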