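import Pool.Agent.E8helper40.PF.Defs

/-!
# The rank of the p-adic closure of a subgroup of a simple abelian variety: the elementary bound
-/

set_option autoImplicit false

open TensorProduct Module Matrix

namespace Pool.Agent.E8helper40.PF

open Pool.Agent.E8helper40.PC (HasZpRank rank_eq exists_rank)

variable {p : ℕ} [Fact p.Prime] {n : ℕ}

lemma extend_tmul {P : Type} [AddCommGroup P] (f : P →+ (Fin n → ℚ_[p])) (q : ℚ) (x : P) :
    extend f (q ⊗ₜ x) = q • f x :=
  LinearMap.liftBaseChange_tmul ..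

variable (A : SimpleAbelianVariety p n)

/-- The span of the logarithms of the elements of `L`. -/
noncomputable def logSpan (L : AddSubgroup A.Pts) : Submodule ℚ_[p] (Fin n → ℚ_[p]) :=
  Submodule.span ℚ_[p] ((A.log.comp A.incl) '' L)

/-- The `ℤ_p`-rank of the closure is the dimension of the span of the logarithms. -/
lemma rank_closure (L : AddSubgroup A.Pts) {d : ℕ} (h : HasZpRank p (closure A L) d) :
    d = finrank ℚ_[p] (logSpan A L) := by
  rw [← rank_eq A.log A.log_continuous A.log_torsion (closure A L) h]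
  have hle : Submodule.span ℚ_[p] (A.log '' (closure A L : Set A.Loc)) = logSpan A L := by
    apply le_antisymm
    · rw [Submodule.span_le]
      rintro _ ⟨x, hx, rfl⟩
      have hcl : IsClosed (logSpan A L : Set (Fin n → ℚ_[p])) :=
        Submodule.closed_of_finiteDimensional _
      have hsub : (L.map A.incl : Set A.Loc) ⊆ A.log ⁻¹' (logSpan A L) := by
        rintro _ ⟨y, hy, rfl⟩
        exact Submodule.subset_span ⟨y, hy, rfl⟩
      exact closure_minimal hsub (hcl.preimage A.log_continuous) hx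
    · rw [logSpan, Submodule.span_le]
      rintro _ ⟨y, hy, rfl⟩
      refine Submodule.subset_span ⟨A.incl y, ?_, rfl⟩
      exact AddSubgroup.le_topologicalClosure _ (AddSubgroup.mem_map_of_mem A.incl hy)
  rw [hle]

lemma exists_family (L : AddSubgroup A.Pts) (hL : L.FG) :
    ∃ e : Fin (rank A L) → L, LinearIndependent ℚ (fun i => (1 : ℚ) ⊗ₜ[ℤ] ((e i : L) : A.Pts)) ∧
      ∀ x ∈ L, (1 : ℚ) ⊗ₜ[ℤ] x ∈
        Submodule.span ℚ (Set.range fun i => (1 : ℚ) ⊗ₜ[ℤ] ((e i : L) : A.Pts)) := by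
  have hfin : Module.Finite ℤ L := Module.Finite.iff_addGroup_fg.2
    ((AddGroup.fg_iff_addSubgroup_fg L).2 hL)
  obtain ⟨κ, e, he, hspan, hli⟩ := exists_linearIndependent' ℚ (fun x : L => (1 : ℚ) ⊗ₜ[ℤ] x)
  have htop : Submodule.span ℚ (Set.range fun x : L => (1 : ℚ) ⊗ₜ[ℤ] x) = ⊤ := by
    rw [eq_top_iff]
    intro z _
    induction z using TensorProduct.induction_on with
    | zero => exact Submodule.zero_mem _
    | tmul q x =>
      have : q ⊗ₜ[ℤ] x = q • ((1 : ℚ) ⊗ₜ[ℤ] x) := by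
        rw [TensorProduct.smul_tmul', smul_eq_mul, mul_one]
      rw [this]
      exact Submodule.smul_mem _ _ (Submodule.subset_span ⟨x, rfl⟩)
    | add a b ha hb => exact Submodule.add_mem _ (ha trivial) (hb trivial)
  have hκ : Finite κ := hli.finite
  have : Fintype κ := Fintype.ofFinite κ
  have hcard : Fintype.card κ = rank A L := by
    rw [← finrank_span_eq_card hli, hspan, htop, finrank_top]
    rfl
  let g : Fin (rank A L) ≃ κ := (finCongr hcard.symm).trans (Fintype.equivFin κ).symm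
  let j : ℚ ⊗[ℤ] L →ₗ[ℚ] ℚ ⊗[ℤ] A.Pts :=
    LinearMap.baseChange ℚ L.subtype.toIntLinearMap
  have hj : Function.Injective j :=
    Module.Flat.lTensor_preserves_injective_linearMap (M := ℚ) L.subtype.toIntLinearMap
      Subtype.val_injective
  refine ⟨fun i => e (g i), ?_, ?_⟩
  · have h1 : LinearIndependent ℚ ((fun x : L => (1 : ℚ) ⊗ₜ[ℤ] x) ∘ e ∘ g) :=
      hli.comp g g.injective
    exact h1.map' j (LinearMap.ker_eq_bot.2 hj)
  · intro x hx
    have h2 : (1 : ℚ) ⊗ₜ[ℤ] (⟨x, hx⟩ : L) ∈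
        Submodule.span ℚ (Set.range ((fun x : L => (1 : ℚ) ⊗ₜ[ℤ] x) ∘ e)) := by
      rw [hspan, htop]
      trivial
    have h3 := Submodule.mem_map_of_mem (f := j) h2
    rw [Submodule.map_span] at h3
    refine Submodule.span_mono ?_ h3
    rintro _ ⟨_, ⟨a, rfl⟩, rfl⟩
    refine ⟨g.symm a, ?_⟩
    simp [j]


section

/-- The action of `D ⊗ ℚ_p` on `Lie A ⊗ ℚ_p`. -/
noncomputable def lieP : EndP A →ₐ[ℚ_[p]] Matrix (Fin n) (Fin n) ℚ_[p] :=
  Algebra.TensorProduct.lift (Algebra.ofId ℚ_[p] _)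
    (((Algebra.ofId ℚ ℚ_[p]).mapMatrix).comp A.lie.toRatAlgHom)
    (fun c _ => Algebra.commute_algebraMap_left c _)

lemma lieP_tmul (c : ℚ_[p]) (δ : A.End) :
    lieP A (c ⊗ₜ δ) = c • ((A.lie δ).map (algebraMap ℚ ℚ_[p])) := by
  change algebraMap ℚ_[p] (Matrix (Fin n) (Fin n) ℚ_[p]) c *
    ((A.lie δ).map (algebraMap ℚ ℚ_[p])) = _
  rw [Algebra.algebraMap_eq_smul_one, smul_mul_assoc, one_mul]

/-- The left ideal of the elements of `D ⊗ ℚ_p` which kill `u`. -/
noncomputable def annih (u : Fin n → ℚ_[p]) : Ideal (EndP A) where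
  carrier := {a | lieP A a *ᵥ u = 0}
  add_mem' := by
    intro a b ha hb
    change lieP A (a + b) *ᵥ u = 0
    rw [map_add, Matrix.add_mulVec, ha, hb, add_zero]
  zero_mem' := by
    change lieP A 0 *ᵥ u = 0
    rw [map_zero, Matrix.zero_mulVec]
  smul_mem' := by
    intro c a ha
    change lieP A (c * a) *ᵥ u = 0
    rw [map_mul, ← Matrix.mulVec_mulVec, ha, Matrix.mulVec_zero]

lemma annih_ne_top {u : Fin n → ℚ_[p]} (hu : u ≠ 0) : annih A u ≠ ⊤ := by
  intro h
  have h1 : (1 : EndP A) ∈ annih A u := by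
    rw [h]
    trivial
  have h2 : lieP A 1 *ᵥ u = 0 := h1
  rw [map_one, Matrix.one_mulVec] at h2
  exact hu h2

lemma finite_end : Module.Finite ℚ A.End := by
  have : Nonempty (Fin n) := ⟨⟨0, A.pos⟩⟩
  have hinj : Function.Injective A.lie.toRatAlgHom := A.lie.injective
  exact Module.Finite.of_injective A.lie.toRatAlgHom.toLinearMap hinj

/-- Rationally independent endomorphisms `δ_i`: the vectors `δ_i u` span a space of dimension at least
`m + μ - dim D`. -/
lemma lower {u : Fin n → ℚ_[p]} (hu : u ≠ 0) {μ : ℕ}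
    (hμ : ∀ I : Ideal (EndP A), I ≠ ⊤ →
      finrank ℚ_[p] (I.restrictScalars ℚ_[p]) + μ ≤ finrank ℚ A.End)
    {m : ℕ} (δ : Fin m → A.End) (hδ : LinearIndependent ℚ δ) :
    m + μ ≤ finrank ℚ_[p] (Submodule.span ℚ_[p]
      (Set.range fun i => ((A.lie (δ i)).map (algebraMap ℚ ℚ_[p])) *ᵥ u)) + finrank ℚ A.End := by
  have hfin := finite_end A
  let φ : EndP A →ₗ[ℚ_[p]] (Fin n → ℚ_[p]) :=
    { toFun := fun a => lieP A a *ᵥ u
      map_add' := fun a b => by rw [map_add, Matrix.add_mulVec]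
      map_smul' := fun c a => by
        rw [map_smul, Matrix.smul_mulVec, RingHom.id_apply] }
  let T : Submodule ℚ_[p] (EndP A) :=
    Submodule.span ℚ_[p] (Set.range fun i => (1 : ℚ_[p]) ⊗ₜ[ℚ] δ i)
  have hli : LinearIndependent ℚ_[p] fun i => (1 : ℚ_[p]) ⊗ₜ[ℚ] δ i :=
    Module.Flat.linearIndependent_one_tmul hδ
  have hT : finrank ℚ_[p] T = m := by
    rw [finrank_span_eq_card hli, Fintype.card_fin]
  have h1 := LinearMap.finrank_range_add_finrank_ker (φ.domRestrict T)
  rw [hT] at h1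
  have h2 : LinearMap.range (φ.domRestrict T) = Submodule.span ℚ_[p]
      (Set.range fun i => ((A.lie (δ i)).map (algebraMap ℚ ℚ_[p])) *ᵥ u) := by
    rw [LinearMap.range_domRestrict, Submodule.map_span, ← Set.range_comp]
    congr 1
    ext z
    constructor
    · rintro ⟨i, rfl⟩
      refine ⟨i, ?_⟩
      change _ = lieP A ((1 : ℚ_[p]) ⊗ₜ[ℚ] δ i) *ᵥ u
      rw [lieP_tmul, one_smul]
    · rintro ⟨i, rfl⟩
      refine ⟨i, ?_⟩
      change lieP A ((1 : ℚ_[p]) ⊗ₜ[ℚ] δ i) *ᵥ u = _
      rw [lieP_tmul, one_smul]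
  have h3 : finrank ℚ_[p] (LinearMap.ker (φ.domRestrict T)) ≤
      finrank ℚ_[p] ((annih A u).restrictScalars ℚ_[p]) := by
    let j : LinearMap.ker (φ.domRestrict T) →ₗ[ℚ_[p]] (annih A u).restrictScalars ℚ_[p] :=
      (T.subtype ∘ₗ (LinearMap.ker (φ.domRestrict T)).subtype).codRestrict _ fun x => x.2
    have : Module.Finite ℚ_[p] ((annih A u).restrictScalars ℚ_[p]) := inferInstance
    refine LinearMap.finrank_le_finrank_of_injective (f := j) ?_
    intro a b h
    have h5 := congrArg (fun w : (annih A u).restrictScalars ℚ_[p] => (w : EndP A)) h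
    apply Subtype.ext
    apply Subtype.ext
    exact h5
  have h4 := hμ (annih A u) (annih_ne_top A hu)
  rw [h2] at h1
  omega

end

lemma extend_ne_zero {v : ℚ ⊗[ℤ] A.Pts} (hv : v ≠ 0) : extend (A.log.comp A.incl) v ≠ 0 := by
  intro h
  obtain ⟨⟨x, s⟩, hx⟩ := IsLocalizedModule.surj (nonZeroDivisors ℤ)
    (TensorProduct.mk ℤ ℚ A.Pts 1) v
  have hs : (s : ℤ) ≠ 0 := nonZeroDivisors.ne_zero s.2
  have hx' : (s : ℤ) • v = (1 : ℚ) ⊗ₜ[ℤ] x := hx
  have h1 : A.log (A.incl x) = 0 := by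
    have h2 : extend (A.log.comp A.incl) ((1 : ℚ) ⊗ₜ[ℤ] x) = A.log (A.incl x) := by
      rw [extend_tmul, one_smul]
      rfl
    rw [← h2, ← hx', map_zsmul, h, smul_zero]
  obtain ⟨N, hN, hN0⟩ := A.log_torsion _ h1
  have h3 : N • x = 0 := by
    apply A.incl_injective
    rw [map_nsmul, hN0, map_zero]
  have h4 : ((s : ℤ) * N) • v = 0 := by
    rw [mul_comm, mul_smul, hx', natCast_zsmul, ← TensorProduct.tmul_smul, h3,
      TensorProduct.tmul_zero]
  have h5 : (((s : ℤ) * N : ℤ) : ℚ) • v = 0 := by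
    rw [Int.cast_smul_eq_zsmul]
    exact h4
  rcases smul_eq_zero.1 h5 with h6 | h6
  · have h7 : (s : ℤ) * N = 0 := by exact_mod_cast h6
    rcases mul_eq_zero.1 h7 with h8 | h8
    · exact hs h8
    · exact hN.ne' (by exact_mod_cast h8)
  · exact hv h6

lemma finite_ratSpan (L : AddSubgroup A.Pts) (hL : L.FG) : Module.Finite ℚ (ratSpan A L) := by
  obtain ⟨e, -, hspan⟩ := exists_family A L hL
  have hle : ratSpan A L ≤
      Submodule.span ℚ (Set.range fun i => (1 : ℚ) ⊗ₜ[ℤ] ((e i : L) : A.Pts)) := by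
    rw [ratSpan, Submodule.span_le]
    rintro _ ⟨x, hx, rfl⟩
    exact hspan x hx
  have : FiniteDimensional ℚ
      (Submodule.span ℚ (Set.range fun i => (1 : ℚ) ⊗ₜ[ℤ] ((e i : L) : A.Pts))) :=
    FiniteDimensional.span_of_finite ℚ (Set.finite_range _)
  exact Submodule.finiteDimensional_of_le hle

lemma finrank_ratSpan (L : AddSubgroup A.Pts) (hL : L.FG) :
    finrank ℚ (ratSpan A L) = rank A L := by
  obtain ⟨e, hli, hspan⟩ := exists_family A L hL
  have heq : ratSpan A L =
      Submodule.span ℚ (Set.range fun i => (1 : ℚ) ⊗ₜ[ℤ] ((e i : L) : A.Pts)) := by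
    apply le_antisymm
    · rw [ratSpan, Submodule.span_le]
      rintro _ ⟨x, hx, rfl⟩
      exact hspan x hx
    · rw [Submodule.span_le]
      rintro _ ⟨i, rfl⟩
      exact Submodule.subset_span ⟨_, (e i).2, rfl⟩
  rw [heq, finrank_span_eq_card hli, Fintype.card_fin]

lemma extend_mem (L : AddSubgroup A.Pts) {w : ℚ ⊗[ℤ] A.Pts} (hw : w ∈ ratSpan A L) :
    extend (A.log.comp A.incl) w ∈ logSpan A L := by
  have h1 := Submodule.mem_map_of_mem (f := extend (A.log.comp A.incl)) hw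
  rw [ratSpan, Submodule.map_span] at h1
  have h2 : (extend (A.log.comp A.incl)) '' ((fun x : A.Pts => (1 : ℚ) ⊗ₜ[ℤ] x) '' L) =
      (A.log.comp A.incl) '' L := by
    rw [Set.image_image]
    refine Set.image_congr fun x _ => ?_
    rw [extend_tmul, one_smul]
  rw [h2] at h1
  exact Submodule.span_le_restrictScalars ℚ ℚ_[p] _ h1

lemma logSpan_le (L : AddSubgroup A.Pts) (hL : L.FG) :
    finrank ℚ_[p] (logSpan A L) ≤ rank A L := by
  obtain ⟨e, -, hspan⟩ := exists_family A L hL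
  have hle : logSpan A L ≤ Submodule.span ℚ_[p] (Set.range fun i =>
      extend (A.log.comp A.incl) ((1 : ℚ) ⊗ₜ ((e i : L) : A.Pts))) := by
    rw [logSpan, Submodule.span_le]
    rintro _ ⟨x, hx, rfl⟩
    have h1 := Submodule.mem_map_of_mem (f := extend (A.log.comp A.incl)) (hspan x hx)
    rw [extend_tmul, one_smul, Submodule.map_span, ← Set.range_comp] at h1
    exact Submodule.span_le_restrictScalars ℚ ℚ_[p] _ h1
  exact (Submodule.finrank_mono hle).trans
    ((finrank_range_le_card _).trans (Fintype.card_fin _).le)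

/-- The bound for the part of `L` which lies on a line over the endomorphism algebra. -/
theorem line_bound (L : AddSubgroup A.Pts) (hL : L.FG) {μ : ℕ}
    (hμ : ∀ I : Ideal (EndP A), I ≠ ⊤ →
      finrank ℚ_[p] (I.restrictScalars ℚ_[p]) + μ ≤ finrank ℚ A.End)
    {v : ℚ ⊗[ℤ] A.Pts} (hv : v ≠ 0) {r : ℕ} (hr : HasZpRank p (closure A L) r) :
    finrank ℚ ↥(ratSpan A L ⊓ line A v) + μ ≤ r + finrank ℚ A.End := by
  have hfinL := finite_ratSpan A L hL
  have hfin : FiniteDimensional ℚ ↥(ratSpan A L ⊓ line A v) :=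
    Submodule.finiteDimensional_of_le (inf_le_left : ratSpan A L ⊓ line A v ≤ ratSpan A L)
  let b := Module.finBasis ℚ ↥(ratSpan A L ⊓ line A v)
  have hb : ∀ i, ∃ δ : A.End, δ • v = (b i : ℚ ⊗[ℤ] A.Pts) := fun i =>
    Submodule.mem_span_singleton.1 (b i).2.2
  choose δ hδ using hb
  have hli : LinearIndependent ℚ δ := by
    rw [Fintype.linearIndependent_iff]
    intro q hq
    have h1 : ∑ i, q i • (b i : ℚ ⊗[ℤ] A.Pts) = 0 := by
      have h2 : (∑ i, q i • δ i) • v = 0 := by rw [hq, zero_smul]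
      rw [Finset.sum_smul] at h2
      rw [← h2]
      refine Finset.sum_congr rfl fun i _ => ?_
      rw [← hδ i, smul_assoc]
    have h3 : ∑ i, q i • b i = 0 := by
      apply Subtype.ext
      rw [Submodule.coe_sum]
      simpa using h1
    exact Fintype.linearIndependent_iff.1 b.linearIndependent q h3
  have h1 := lower A (extend_ne_zero A hv) hμ δ hli
  have h2 : finrank ℚ_[p] (Submodule.span ℚ_[p] (Set.range fun i =>
      ((A.lie (δ i)).map (algebraMap ℚ ℚ_[p])) *ᵥ (extend (A.log.comp A.incl) v))) ≤ r := by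
    rw [rank_closure A L hr]
    refine Submodule.finrank_mono ?_
    rw [Submodule.span_le]
    rintro _ ⟨i, rfl⟩
    have h3 := A.log_smul (δ i) v
    change ((A.lie (δ i)).map (algebraMap ℚ ℚ_[p])) *ᵥ (extend (A.log.comp A.incl)) v ∈ logSpan A L
    rw [← h3, hδ i]
    exact extend_mem A L (b i).2.1
  omega

/-- If `D ⊗ ℚ_p` has no zero divisors, every proper left ideal is zero. -/
lemma mu_of_domain (h : ∀ a b : EndP A, a * b = 0 → a = 0 ∨ b = 0) (I : Ideal (EndP A))
    (hI : I ≠ ⊤) : finrank ℚ_[p] (I.restrictScalars ℚ_[p]) + finrank ℚ A.End ≤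
      finrank ℚ A.End := by
  have hfin := finite_end A
  have h0 : I = ⊥ := by
    rw [eq_bot_iff]
    intro a ha
    by_contra hne
    have hne' : a ≠ 0 := hne
    apply hI
    rw [Ideal.eq_top_iff_one]
    have hinj : Function.Injective (LinearMap.mulRight ℚ_[p] a) := by
      rw [injective_iff_map_eq_zero]
      intro z hz
      rcases h z a hz with h1 | h1
      · exact h1
      · exact absurd h1 hne'
    obtain ⟨z, hz⟩ := LinearMap.injective_iff_surjective.1 hinj 1
    have hz' : z * a = 1 := hz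
    rw [← hz']
    exact I.mul_mem_left z ha
  rw [h0]
  have h1 : finrank ℚ_[p] ((⊥ : Ideal (EndP A)).restrictScalars ℚ_[p]) = 0 := by
    have : Subsingleton ((⊥ : Ideal (EndP A)).restrictScalars ℚ_[p]) :=
      ⟨fun x y => Subtype.ext ((show (x : EndP A) = 0 from x.2).trans
        (show (y : EndP A) = 0 from y.2).symm)⟩
    exact finrank_zero_of_subsingleton
  rw [h1, zero_add]

lemma exists_line (L : AddSubgroup A.Pts) (hL : L.FG) (hone : finrank A.End (endSpan A L) ≤ 1)
    (h0 : rank A L ≠ 0) : ∃ v, v ≠ 0 ∧ ratSpan A L ≤ line A v := by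
  have hfin : FiniteDimensional A.End (endSpan A L) := by
    obtain ⟨e, -, hspan⟩ := exists_family A L hL
    have hle : endSpan A L ≤
        Submodule.span A.End (Set.range fun i => (1 : ℚ) ⊗ₜ[ℤ] ((e i : L) : A.Pts)) := by
      rw [endSpan, Submodule.span_le]
      rintro _ ⟨x, hx, rfl⟩
      exact Submodule.span_le_restrictScalars ℚ A.End _ (hspan x hx)
    have : FiniteDimensional A.End
        (Submodule.span A.End (Set.range fun i => (1 : ℚ) ⊗ₜ[ℤ] ((e i : L) : A.Pts))) :=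
      FiniteDimensional.span_of_finite A.End (Set.finite_range _)
    exact Submodule.finiteDimensional_of_le hle
  have hle : ratSpan A L ≤ (endSpan A L).restrictScalars ℚ := by
    rw [ratSpan, Submodule.span_le]
    rintro _ ⟨x, hx, rfl⟩
    exact Submodule.subset_span ⟨x, hx, rfl⟩
  obtain ⟨⟨v, hv⟩, hgen⟩ := finrank_le_one_iff.1 hone
  have hsub : ratSpan A L ≤ line A v := by
    intro w hw
    obtain ⟨c, hc⟩ := hgen ⟨w, hle hw⟩
    exact Submodule.mem_span_singleton.2 ⟨c, congrArg Subtype.val hc⟩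
  refine ⟨v, ?_, hsub⟩
  rintro rfl
  apply h0
  rw [← finrank_ratSpan A L hL]
  have : ratSpan A L = ⊥ := by
    rw [eq_bot_iff]
    intro w hw
    obtain ⟨c, hc⟩ := Submodule.mem_span_singleton.1 (hsub hw)
    rw [smul_zero] at hc
    exact hc.symm
  rw [this]
  exact finrank_bot ℚ _

end Pool.Agent.E8helper40.PF
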